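import Pool.Agent.H41.RA.Rad

/-!
# [H61 NB Nb] THEOREM C (MP_e49dc9_ag): NB, neighbourhoods in the span `N` of the face

`N` a rational subspace with `T(w,w',.) = a T(p,p,.)` and `T(p,p,w) = 0` for `w, w' ∈ N`, `C p + w` nef for `w ∈ N`, `q ∈ N` nef, `T(q,q,A) > 0`,
`l(q) > 0` (`q` real).  `nb`: there is `ρ > 0` such that all `w ∈ N` with `‖w - q‖ < ρ` and `T(w,A,D) ≥ 0` for the prime divisors `D` with
`T(p,p,D) = 0 = T(q,A,D)` are nef.

Proof.  The integral points `W` of `N` near `x q` have sections for `x` large (`T = 0` on `N³`, so `chi W` is about `x l(q)`).  On a curve which does not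
lie on their supports `w` has degree `≥ 0`.  The prime factors `D` are vertical; if `T(q,A,D) > 0` then `deg w = c deg q` on the curves of `D`,
`c = T(w,A,D)/T(q,A,D) > 0`; if `T(q,A,D) = 0 < T(p,A,D)` then `deg w = c' deg p`, `c' = T(w,A,D)/T(p,A,D) ≥ 0`; if `T(p,A,D) = 0` then `deg w = 0`.
-/

set_option autoImplicit false

namespace Pool.Agent.H61.NB

open Pool.Agent.H54.RV Pool.Agent.H83.TU Pool.Agent.H83.TK Pool.Agent.H20.TD Pool.Agent.H20.TP Pool.Agent.H20.RT Pool.Agent.H41.RA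
open Pool.Agent.H24.VP (RR chS chi)

variable {k K : Type} [Field k] [Field K] [Algebra k K] {X : Mod k K} {r : ℕ}
  {ν : Cart X →* Multiplicative (Fin r → ℤ)} {T : Cart X → Cart X → Cart X → ℝ} {l : Cart X → ℝ} {c : ℝ} {TR : Tri3 r}
  {p q : Fin r → ℝ} {A : Cart X} {N : Submodule ℝ (Fin r → ℝ)}

/-- a finite integral generating family -/
theorem gen_fin (hrat : N ≤ Submodule.span ℝ {v | v ∈ N ∧ ∃ W : Cart X, cR ν W = v}) :
    ∃ (d : ℕ) (g : Fin d → Cart X) (s : (Fin r → ℝ) →ₗ[ℝ] (Fin d → ℝ)), (∀ i, cR ν (g i) ∈ N) ∧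
      ∀ w ∈ N, w = ∑ i, s w i • cR ν (g i) := by
  classical
  obtain ⟨b, hbS, hb1, hb2⟩ := exists_linearIndependent ℝ {v | v ∈ N ∧ ∃ W : Cart X, cR ν W = v}
  have hfin : b.Finite := hb2.setFinite
  have : Fintype b := hfin.fintype
  obtain ⟨e⟩ : Nonempty (Fin (Fintype.card b) ≃ b) := ⟨(Fintype.equivFin b).symm⟩
  have hg : ∀ i, ∃ W : Cart X, cR ν W = e i := fun i => (hbS (e i).2).2
  choose g hg using hg
  have hgN : ∀ i, cR ν (g i) ∈ N := fun i => by rw [hg]; exact (hbS (e i).2).1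
  obtain ⟨f, hf⟩ : ∃ f : (Fin (Fintype.card b) → ℝ) →ₗ[ℝ] N, ∀ x, (f x : Fin r → ℝ) = ∑ i, x i • cR ν (g i) := by
    refine ⟨∑ i, (LinearMap.proj i).smulRight (⟨cR ν (g i), hgN i⟩ : N), fun x => ?_⟩
    rw [LinearMap.sum_apply, Submodule.coe_sum]
    rfl
  have hsur : LinearMap.range f = ⊤ := by
    rw [eq_top_iff]
    rintro ⟨w, hw⟩ -
    have h1 : w ∈ Submodule.span ℝ b := by rw [hb1]; exact hrat hw
    have h2 : Submodule.span ℝ b ≤ (LinearMap.range f).map N.subtype := by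
      rw [Submodule.span_le]
      intro v hv
      refine ⟨f (Pi.single (e.symm ⟨v, hv⟩) 1), LinearMap.mem_range_self f _, ?_⟩
      rw [Submodule.subtype_apply, hf, Finset.sum_eq_single (e.symm ⟨v, hv⟩)]
      · rw [Pi.single_eq_same, one_smul, hg, Equiv.apply_symm_apply]
      · intro i _ hi
        rw [Pi.single_eq_of_ne hi, zero_smul]
      · intro h3
        exact absurd (Finset.mem_univ _) h3
    obtain ⟨y, hy, hyw⟩ := h2 h1
    have h3 : y = ⟨w, hw⟩ := Subtype.ext hyw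
    rw [← h3]
    exact hy
  obtain ⟨s, hs⟩ := LinearMap.exists_rightInverse_of_surjective f hsur
  obtain ⟨s', hs'⟩ := LinearMap.exists_extend s
  refine ⟨_, g, s', hgN, fun w hw => ?_⟩
  have h1 : s' w = s ⟨w, hw⟩ := by
    rw [← hs']
    rfl
  have h2 : f (s ⟨w, hw⟩) = ⟨w, hw⟩ := by
    have h3 := LinearMap.congr_fun hs ⟨w, hw⟩
    exact h3
  rw [h1, ← hf, h2]

/-- what is known about `N` -/
structure Fac (ν : Cart X →* Multiplicative (Fin r → ℤ)) (TR : Tri3 r) (p : Fin r → ℝ) (N : Submodule ℝ (Fin r → ℝ)) : Prop where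
  pc : p ∈ closure (CC ν)
  pN : p ∈ N
  int : ∀ w ∈ N, ∃ C : ℝ, 0 ≤ C ∧ C • p + w ∈ closure (CC ν)
  form : ∀ w ∈ N, ∀ w' ∈ N, ∃ a : ℝ, ∀ v, TR w w' v = a * TR p p v
  zN : ∀ w ∈ N, TR p p w = 0
  rat : N ≤ Submodule.span ℝ {v | v ∈ N ∧ ∃ W : Cart X, cR ν W = v}

/-- proportional degrees on a vertical prime divisor -/
theorem prop_deg [CharZero k] [IsAlgClosed k] [T0Space X.P] (h : Hyp X) (hr : RR T l c) (hν : NumR ν)
    (hT : ∀ U V W, TR (cR ν U) (cR ν V) (cR ν W) = T U V W) (hA : Ample A) (hF : Fac ν TR p N)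
    {Q : PDiv X} {D : Cart X} (hD : SPr X Q.η D) (hpD : TR p p (cR ν D) = 0) {u w : Fin r → ℝ} (hu : u ∈ N) (hw : w ∈ N)
    {a : ℝ} (ha : TR w (cR ν A) (cR ν D) = a * TR u (cR ν A) (cR ν D)) {x : X.P} (hx : Cv Q.η x) :
    dR hν h.var x w = a * dR hν h.var x u := by
  have h1 : w - a • u ∈ N := N.sub_mem hw (N.smul_mem a hu)
  obtain ⟨b, hb⟩ := hF.form _ h1 _ h1
  have h2 : TR (w - a • u) (cR ν A) (cR ν D) = 0 := by
    rw [map_sub, map_smul]
    simp only [LinearMap.sub_apply, LinearMap.smul_apply, smul_eq_mul]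
    rw [ha, sub_self]
  have h3 : 0 ≤ TR (w - a • u) (w - a • u) (cR ν D) := by
    rw [hb, hpD, mul_zero]
  have h4 := Pool.Agent.H89.RT.hc_nn h hr hν hT (trdeg_pdiv h Q) hD hA h2 h3 hx
  rw [map_sub, map_smul, smul_eq_mul, sub_eq_zero] at h4
  exact h4

/-- the degree of `w` on the curves of a vertical prime divisor -/
theorem deg_nn [CharZero k] [IsAlgClosed k] [T0Space X.P] (h : Hyp X) (hr : RR T l c) (hν : NumR ν)
    (hT : ∀ U V W, TR (cR ν U) (cR ν V) (cR ν W) = T U V W) (hA : Ample A) (hF : Fac ν TR p N)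
    {Q : PDiv X} {D : Cart X} (hD : SPr X Q.η D) (hpD : TR p p (cR ν D) = 0) {w : Fin r → ℝ} (hw : w ∈ N)
    (h1 : 0 ≤ TR w (cR ν A) (cR ν D)) {x : X.P} (hx : Cv Q.η x) : 0 ≤ dR hν h.var x w := by
  have key : ∀ u ∈ N, u ∈ closure (CC ν) → 0 < TR u (cR ν A) (cR ν D) → 0 ≤ dR hν h.var x w := by
    intro u hu huc h2
    rw [prop_deg h hr hν hT hA hF hD hpD hu hw (a := TR w (cR ν A) (cR ν D) / TR u (cR ν A) (cR ν D))
      (by rw [div_mul_cancel₀ _ h2.ne']) hx]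
    exact mul_nonneg (div_nonneg h1 h2.le) (dR_nef hν h.var hA hx.2 huc)
  by_cases h2 : 0 < TR p (cR ν A) (cR ν D)
  · exact key p hF.pN hF.pc h2
  · have hnn : ∀ u ∈ closure (CC ν), 0 ≤ TR u (cR ν A) (cR ν D) := fun u hu =>
      tpa_nn h hr hν hT (trdeg_pdiv h Q) hD hA hu
    have h3 : TR p (cR ν A) (cR ν D) = 0 := le_antisymm (not_lt.1 h2) (hnn p hF.pc)
    have h4 : TR w (cR ν A) (cR ν D) = 0 := by
      refine le_antisymm ?_ h1
      obtain ⟨C, -, hC⟩ := hF.int (-w) (N.neg_mem hw)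
      have h5 := hnn _ hC
      simp only [map_add, map_smul, map_neg, LinearMap.add_apply, LinearMap.smul_apply, LinearMap.neg_apply,
        smul_eq_mul] at h5
      rw [h3] at h5
      linarith
    rw [prop_deg h hr hν hT hA hF hD hpD hF.pN hw (a := 0) (by rw [h4, zero_mul]) hx, zero_mul]

/-- **(NB)** -/
theorem nb [CharZero k] [IsAlgClosed k] [T0Space X.P] (h : Hyp X) (hr : RR T l c) (hν : NumR ν)
    (hT : ∀ U V W, TR (cR ν U) (cR ν V) (cR ν W) = T U V W) {L : (Fin r → ℝ) →ₗ[ℝ] ℝ}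
    (hL : ∀ D, L (cR ν D) = l D) (hA : Ample A) (hF : Fac ν TR p N)
    (hq : q ∈ closure (CC ν)) (hqN : q ∈ N) (hqq : 0 < TR q q (cR ν A)) (hlq : 0 < L q) :
    ∃ ρ : ℝ, 0 < ρ ∧ ∀ w ∈ N, ‖w - q‖ < ρ →
      (∀ (Q : PDiv X) (D : Cart X), SPr X Q.η D → TR p p (cR ν D) = 0 → TR q (cR ν A) (cR ν D) = 0 →
        0 ≤ TR w (cR ν A) (cR ν D)) → w ∈ closure (CC ν) := by
  classical
  obtain ⟨d, g, s, hgN, hs⟩ := gen_fin hF.rat
  -- the vertices
  obtain ⟨n, hn⟩ : ∃ n : ℝ → (Fin d → Bool) → Fin d → ℤ, n = fun x e i => if e i then ⌊x * s q i⌋ + 2 else ⌊x * s q i⌋ - 1 :=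
    ⟨_, rfl⟩
  obtain ⟨W, hW⟩ : ∃ W : ℝ → (Fin d → Bool) → Cart X, W = fun x e => ∏ i, g i ^ n x e i := ⟨_, rfl⟩
  have hcW : ∀ x e, cR ν (W x e) = ∑ i, (n x e i : ℝ) • cR ν (g i) := by
    intro x e
    rw [hW]
    change rv (ci ν (∏ i, g i ^ n x e i)) = _
    have h1 : ∀ t : Finset (Fin d), rv (ci ν (∏ i ∈ t, g i ^ n x e i)) = ∑ i ∈ t, (n x e i : ℝ) • cR ν (g i) := by
      intro t
      induction t using Finset.induction_on with
      | empty =>
        rw [Finset.prod_empty, Finset.sum_empty]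
        exact cR_one (ν := ν)
      | insert a t ha ih =>
        rw [Finset.prod_insert ha, Finset.sum_insert ha, ← ih, ci_mul, rv_add, ci_zpow, rv_smul]
    exact h1 Finset.univ
  have hWN : ∀ x e, cR ν (W x e) ∈ N := fun x e => by
    rw [hcW]
    exact N.sum_mem fun i _ => N.smul_mem _ (hgN i)
  obtain ⟨R₀, hR₀⟩ : ∃ R₀, R₀ = ∑ i, 2 * ‖cR ν (g i)‖ := ⟨_, rfl⟩
  have hnear : ∀ x e, ‖cR ν (W x e) - x • q‖ ≤ R₀ := by
    intro x e
    have h1 : x • q = ∑ i, (x * s q i) • cR ν (g i) := by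
      conv_lhs => rw [hs q hqN]
      rw [Finset.smul_sum]
      exact Finset.sum_congr rfl fun i _ => smul_smul _ _ _
    rw [hcW, h1, ← Finset.sum_sub_distrib, hR₀]
    refine norm_sum_le_of_le _ fun i _ => ?_
    rw [← sub_smul, norm_smul, Real.norm_eq_abs]
    refine mul_le_mul_of_nonneg_right ?_ (norm_nonneg _)
    have h2 := Int.floor_le (x * s q i)
    have h3 := Int.lt_floor_add_one (x * s q i)
    rw [hn, abs_le]
    by_cases he : e i = true
    · simp only [he, if_true]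
      push_cast
      constructor <;> linarith
    · simp only [he]
      push_cast
      constructor <;> linarith
  -- sections
  obtain ⟨C, x₀, hC⟩ := Pool.Agent.H24.RC.low_nu h hr hν hT hA hq hqq R₀
  obtain ⟨B, hB0, hB⟩ := Pool.Agent.H24.RC.ball_bd (f := fun u => L u) (LinearMap.continuous_of_finiteDimensional L) R₀
  obtain ⟨x, hx⟩ : ∃ x, x = max 1 (max x₀ ((C + B - c + 1) / L q)) := ⟨_, rfl⟩
  have hx1 : 1 ≤ x := by rw [hx]; exact le_max_left _ _
  have hx2 : x₀ ≤ x := by rw [hx]; exact (le_max_left _ _).trans (le_max_right _ _)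
  have hx3 : C + B - c + 1 ≤ x * L q := by
    rw [← div_le_iff₀ hlq, hx]
    exact (le_max_right _ _).trans (le_max_right _ _)
  have hsec : ∀ e, 0 < h0 (W x e) 1 := by
    intro e
    have h1 := hC (W x e) x hx2 (hnear x e)
    have h2 : TR (cR ν (W x e)) (cR ν (W x e)) (cR ν (W x e)) = 0 := by
      obtain ⟨a, ha⟩ := hF.form _ (hWN x e) _ (hWN x e)
      rw [ha, hF.zN _ (hWN x e), mul_zero]
    have h3 := (abs_le.1 (hB _ (hnear x e))).1
    rw [map_sub, map_smul, smul_eq_mul, hL] at h3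
    unfold chi at h1
    rw [← hT, h2] at h1
    have h4 : (0 : ℝ) < h0 (W x e) 1 := by linarith
    exact_mod_cast h4
  -- the prime factors
  have hfac := fun e => srf_fac h hr hν hT (hsec e)
  choose Ls hLs1 hLs2 hLs3 using hfac
  have hver : ∀ e, ∀ y ∈ Ls e, TR p p (cR ν y.2) = 0 := fun e =>
    fac_ver h hr hν hT hF.pc (hLs1 e) (by rw [← hLs2 e, hF.zN _ (hWN x e)])
  obtain ⟨Fs, hFs⟩ : ∃ Fs : Finset (PDiv X × Cart X), Fs = Finset.univ.biUnion fun e => (Ls e).toFinset := ⟨_, rfl⟩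
  -- a neighbourhood for every factor
  have hD : ∀ y : PDiv X × Cart X, ∃ ρ : ℝ, 0 < ρ ∧ ∀ w : Fin r → ℝ, ‖w - q‖ < ρ →
      0 < TR q (cR ν A) (cR ν y.2) → 0 < TR w (cR ν A) (cR ν y.2) := by
    intro y
    by_cases h1 : 0 < TR q (cR ν A) (cR ν y.2)
    · have h2 : Continuous fun w => TR w (cR ν A) (cR ν y.2) :=
        cont3' TR continuous_id continuous_const continuous_const
      have h3 : IsOpen {w | 0 < TR w (cR ν A) (cR ν y.2)} := isOpen_lt continuous_const h2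
      obtain ⟨ρ, hρ, hρ2⟩ := Metric.isOpen_iff.1 h3 q h1
      exact ⟨ρ, hρ, fun w hw _ => hρ2 (by rwa [Metric.mem_ball, dist_eq_norm])⟩
    · exact ⟨1, one_pos, fun w _ h2 => absurd h2 h1⟩
  choose ρ hρ hρ2 using hD
  obtain ⟨ρ₁, hρ₁, hρ₁2⟩ : ∃ ρ₁ : ℝ, 0 < ρ₁ ∧ ∀ y ∈ Fs, ρ₁ ≤ ρ y := by
    rcases Fs.eq_empty_or_nonempty with h1 | h1
    · exact ⟨1, one_pos, fun y hy => by rw [h1] at hy; exact absurd hy (Finset.notMem_empty _)⟩
    · obtain ⟨y, -, hy⟩ := Fs.exists_min_image ρ h1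
      exact ⟨ρ y, hρ y, hy⟩
  have hscont : Continuous s := LinearMap.continuous_of_finiteDimensional s
  obtain ⟨ρ₂, hρ₂, hρ₂2⟩ : ∃ ρ₂ : ℝ, 0 < ρ₂ ∧ ∀ w, ‖w - q‖ < ρ₂ → ∀ i, |s w i - s q i| ≤ 1 / x := by
    have h1 := Metric.continuous_iff.1 hscont q (1 / x) (by positivity)
    obtain ⟨δ, hδ, h2⟩ := h1
    refine ⟨δ, hδ, fun w hw i => ?_⟩
    have h3 := h2 w (by rwa [dist_eq_norm])
    rw [dist_eq_norm] at h3
    have h4 := (norm_le_pi_norm (s w - s q) i).trans h3.le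
    rwa [Real.norm_eq_abs, Pi.sub_apply] at h4
  refine ⟨min ρ₁ ρ₂, lt_min hρ₁ hρ₂, fun w hw hwq hE => Pool.Agent.H89.RS.klm h hr hν hT fun y hy => ?_⟩
  by_contra hcon
  push Not at hcon
  -- the vertex
  obtain ⟨f, hf⟩ : ∃ f : Fin d → ℝ, f = fun i => dR hν h.var y (cR ν (g i)) := ⟨_, rfl⟩
  obtain ⟨e, he⟩ : ∃ e : Fin d → Bool, e = fun i => decide (f i < 0) := ⟨_, rfl⟩
  have h1 : dR hν h.var y (cR ν (W x e)) ≤ x * dR hν h.var y w := by
    conv_rhs => rw [hs w hw]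
    rw [hcW, map_sum, map_sum, Finset.mul_sum]
    refine Finset.sum_le_sum fun i _ => ?_
    rw [map_smul, map_smul, smul_eq_mul, smul_eq_mul, ← mul_assoc]
    have h2 := (abs_le.1 (hρ₂2 w (hwq.trans_le (min_le_right _ _)) i))
    have h3 := Int.floor_le (x * s q i)
    have h4 := Int.lt_floor_add_one (x * s q i)
    have hx0 : 0 < x := by linarith
    have h5 : x * s w i ≤ x * s q i + 1 := by
      have := mul_le_mul_of_nonneg_left h2.2 hx0.le
      rw [mul_sub, mul_one_div_cancel hx0.ne'] at this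
      linarith
    have h6 : x * s q i - 1 ≤ x * s w i := by
      have := mul_le_mul_of_nonneg_left h2.1 hx0.le
      rw [mul_sub, mul_neg, mul_one_div_cancel hx0.ne'] at this
      linarith
    have hfi : dR hν h.var y (cR ν (g i)) = f i := by rw [hf]
    rw [hfi, hn]
    by_cases h7 : f i < 0
    · have h8 : e i = true := by rw [he]; exact decide_eq_true h7
      simp only [h8, if_true]
      push_cast
      nlinarith
    · have h8 : e i = false := by rw [he]; exact decide_eq_false h7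
      simp only [h8]
      push Not at h7
      push_cast
      nlinarith
  have h2 : dR hν h.var y (cR ν (W x e)) < 0 := h1.trans_lt (by nlinarith)
  rw [hLs3 e y hy] at h2
  have h3 : ∃ z ∈ Ls e, dR hν h.var y (cR ν z.2) < 0 := by
    by_contra h4
    push Not at h4
    refine absurd h2 (not_lt.2 (List.sum_nonneg fun t ht => ?_))
    obtain ⟨z, hz, rfl⟩ := List.mem_map.1 ht
    exact h4 z hz
  obtain ⟨z, hz, hz2⟩ := h3
  have h4 : z.1.η ⤳ y := by
    by_contra h5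
    exact absurd hz2 (not_lt.2 (dR_eff h hν (hLs1 e z hz).eff ((hLs1 e z hz).un y h5) hy))
  have hzF : z ∈ Fs := by
    rw [hFs]
    exact Finset.mem_biUnion.2 ⟨e, Finset.mem_univ _, List.mem_toFinset.2 hz⟩
  refine absurd hcon (not_lt.2 (deg_nn h hr hν hT hA hF (hLs1 e z hz) (hver e z hz) hw ?_ ⟨h4, hy⟩))
  have hqn : 0 ≤ TR q (cR ν A) (cR ν z.2) := tpa_nn h hr hν hT (trdeg_pdiv h z.1) (hLs1 e z hz) hA hq
  rcases hqn.eq_or_lt with h5 | h5
  · exact hE z.1 z.2 (hLs1 e z hz) (hver e z hz) h5.symm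
  · exact (hρ2 z w (hwq.trans_le ((min_le_left _ _).trans (hρ₁2 z hzF))) h5).le

end Pool.Agent.H61.NB
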